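import Pool.Agent.Y123.ST.Exp
import Pool.Agent.R917.ExpGrp

/-!
# The Lie algebra of a subtorsor is a Lie algebra, and the exponential map
-/

set_option autoImplicit false
set_option linter.unusedSectionVars false

open Matrix MvPolynomial

namespace Pool.Agent.W2helper33.OQ

open Pool.Agent.TH127.PT Pool.Agent.TH119.DR Pool.Agent.Y123.ST

variable {N : Type} [Fintype N] [DecidableEq N] {K : Subfield ℂ} {T : Set (Matrix N N ℂ)}

/-- The Lie algebra of a subtorsor, as a space of matrices. -/
def LM (T : Set (Matrix N N ℂ)) : Submodule ℂ (Matrix N N ℂ) where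
  carrier := {w | fl w ∈ LL T}
  zero_mem' := by
    change fl (0 : Matrix N N ℂ) ∈ LL T
    rw [fl_zero]
    exact Submodule.zero_mem _
  add_mem' := by
    intro v w hv hw
    change fl (v + w) ∈ LL T
    rw [fl_add]
    exact Submodule.add_mem _ hv hw
  smul_mem' := by
    intro a v hv
    change fl (a • v) ∈ LL T
    rw [fl_smul]
    exact Submodule.smul_mem _ a hv

theorem mem_LM {w : Matrix N N ℂ} : w ∈ LM T ↔ fl w ∈ LL T := Iff.rfl

/-! ### The vector fields -/

theorem DL_add (w : Matrix N N ℂ) (P Q : MvPolynomial (N × N) ℂ) : DL w (P + Q) = DL w P + DL w Q := by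
  unfold DL
  rw [← Finset.sum_add_distrib]
  exact Finset.sum_congr rfl fun b _ => by rw [map_add, add_mul]

theorem DL_mul (w : Matrix N N ℂ) (P Q : MvPolynomial (N × N) ℂ) :
    DL w (P * Q) = DL w P * Q + P * DL w Q := by
  unfold DL
  rw [Finset.sum_mul, Finset.mul_sum, ← Finset.sum_add_distrib]
  exact Finset.sum_congr rfl fun b _ => by rw [pderiv_mul]; ring

theorem DL_C (w : Matrix N N ℂ) (a : ℂ) : DL w (C a) = 0 := by
  unfold DL
  exact Finset.sum_eq_zero fun b _ => by rw [pderiv_C, zero_mul]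

theorem DL_X (w : Matrix N N ℂ) (b : N × N) : DL w (X b) = sb (ml w) b := by
  unfold DL
  rw [Finset.sum_eq_single b]
  · rw [pderiv_X_self, one_mul]
  · intro k _ hk
    rw [pderiv_X_of_ne hk.symm, zero_mul]
  · intro h
    exact absurd (Finset.mem_univ _) h

theorem DL_sub (w : Matrix N N ℂ) (P Q : MvPolynomial (N × N) ℂ) : DL w (P - Q) = DL w P - DL w Q := by
  unfold DL
  rw [← Finset.sum_sub_distrib]
  exact Finset.sum_congr rfl fun b _ => by rw [map_sub, sub_mul]

theorem DL_sum (w : Matrix N N ℂ) {ι : Type*} (s : Finset ι) (P : ι → MvPolynomial (N × N) ℂ) :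
    DL w (∑ i ∈ s, P i) = ∑ i ∈ s, DL w (P i) := by
  classical
  induction s using Finset.induction_on with
  | empty =>
    rw [Finset.sum_empty, Finset.sum_empty]
    have := DL_C w 0
    rwa [C_0] at this
  | insert a s ha ih => rw [Finset.sum_insert ha, Finset.sum_insert ha, DL_add, ih]

/-- Linear forms. -/
theorem DL_sb (v w : Matrix N N ℂ) (b : N × N) : DL v (sb (ml w) b) = sb (ml (w * v)) b := by
  refine MvPolynomial.funext fun y => ?_
  rw [eval_DL, dd_sb, eval_sb]
  change (fl (w * um (fl (v * um y)))) b = fl (w * v * um y) b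
  rw [um_fl, Matrix.mul_assoc]

theorem DL_comm (v w : Matrix N N ℂ) (P : MvPolynomial (N × N) ℂ) :
    DL v (DL w P) - DL w (DL v P) = DL (w * v - v * w) P := by
  induction P using MvPolynomial.induction_on with
  | C a =>
    rw [DL_C, DL_C, DL_C]
    have := DL_C v 0
    rw [C_0] at this
    have h2 := DL_C w 0
    rw [C_0] at h2
    rw [this, h2, sub_zero]
  | add p q hp hq =>
    rw [DL_add, DL_add, DL_add, DL_add, DL_add, ← hp, ← hq]
    ring
  | mul_X p b hp =>
    rw [DL_mul, DL_mul, DL_mul, DL_X, DL_X, DL_X, DL_add, DL_add, DL_mul, DL_mul, DL_mul, DL_mul, DL_X, DL_X, ← hp,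
      DL_sb, DL_sb]
    have h1 : sb (ml (w * v - v * w)) b = sb (ml (w * v)) b - sb (ml (v * w)) b := by
      refine MvPolynomial.funext fun y => ?_
      rw [map_sub, eval_sb, eval_sb, eval_sb]
      change fl ((w * v - v * w) * um y) b = fl (w * v * um y) b - fl (v * w * um y) b
      rw [Matrix.sub_mul]
      rfl
    rw [h1]
    ring

/-- **The Lie algebra is closed under brackets.** -/
theorem LM_br {X Y : Matrix N N ℂ} (hX : X ∈ LM T) (hY : Y ∈ LM T) : X * Y - Y * X ∈ LM T := by
  intro P hP x hx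
  have h1 := van_DL hX (van_DL hY hP)
  have h2 := van_DL hY (van_DL hX hP)
  have h3 := DL_comm Y X P
  have h4 := eval_DL (X * Y - Y * X) P (fl x)
  rw [← h3, map_sub, h2 x hx, h1 x hx, sub_zero, ml_fl] at h4
  rw [um_fl]
  exact h4.symm

/-! ### The exponential map -/

theorem hasDerivAt_left (w x : Matrix N N ℂ) (b : N × N) (t : ℂ) :
    HasDerivAt (fun s : ℂ => fl (NormedSpace.exp (s • w) * x) b) (fl (w * (NormedSpace.exp (t • w) * x)) b) t := by
  have h1 : ∀ k, HasDerivAt (fun s : ℂ => NormedSpace.exp (s • w) b.1 k) ((w * NormedSpace.exp (t • w)) b.1 k) t := by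
    intro k
    have h2 := Pool.Agent.R917.hasDerivAt_entry 1 w b.1 k t
    simp only [Matrix.one_mul] at h2
    have hcom : Commute (t • w) w := (Commute.refl w).smul_left _
    have h3 : NormedSpace.exp (t • w) * w = w * NormedSpace.exp (t • w) := (hcom.exp_left).eq
    rwa [h3] at h2
  have h2 : (fun s : ℂ => fl (NormedSpace.exp (s • w) * x) b) =
      fun s : ℂ => ∑ k, NormedSpace.exp (s • w) b.1 k * x k b.2 := by
    funext s
    exact Matrix.mul_apply
  rw [h2, ← Matrix.mul_assoc]
  have h3 : fl (w * NormedSpace.exp (t • w) * x) b = ∑ k, (w * NormedSpace.exp (t • w)) b.1 k * x k b.2 :=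
    Matrix.mul_apply
  rw [h3]
  exact HasDerivAt.fun_sum fun k _ => (h1 k).mul_const _

theorem hasDerivAt_eval {B : Type*} [Fintype B] [DecidableEq B] {y : ℂ → B → ℂ} {v : B → ℂ} {t : ℂ}
    (hy : ∀ b, HasDerivAt (fun s => y s b) (v b) t) (P : MvPolynomial B ℂ) :
    HasDerivAt (fun s => eval (y s) P) (dd P (y t) v) t := by
  induction P using MvPolynomial.induction_on with
  | C a =>
    simp only [eval_C, dd_C]
    exact hasDerivAt_const t a
  | add p q hp hq =>
    simp only [map_add, dd_add]
    exact hp.add hq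
  | mul_X p b hp =>
    simp only [map_mul, eval_X, dd_mul, dd_X]
    exact hp.mul (hy b)

/-- A family of polynomials which vanish at a point and is stable under a vector field vanishes on the
curve. -/
theorem eval_exp_zero {S : MvPolynomial (N × N) ℂ → Prop} {w x : Matrix N N ℂ} (hD : ∀ P, S P → S (DL w P))
    (h0 : ∀ P, S P → eval (fl x) P = 0) {P : MvPolynomial (N × N) ℂ} (hP : S P) (t : ℂ) :
    eval (fl (NormedSpace.exp (t • w) * x)) P = 0 := by
  let F : MvPolynomial (N × N) ℂ → ℂ → ℂ := fun P s => eval (fl (NormedSpace.exp (s • w) * x)) P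
  have hder : ∀ P t, HasDerivAt (F P) (F (DL w P) t) t := by
    intro P t
    have h1 := hasDerivAt_eval (y := fun s => fl (NormedSpace.exp (s • w) * x)) (fun b => hasDerivAt_left w x b t) P
    have h2 : F (DL w P) t = dd P (fl (NormedSpace.exp (t • w) * x)) (fl (w * (NormedSpace.exp (t • w) * x))) := by
      change eval _ (DL w P) = _
      rw [eval_DL, ml_fl]
    rw [h2]
    exact h1
  have hd : ∀ P, Differentiable ℂ (F P) := fun P t => (hder P t).differentiableAt
  have hit : ∀ n : ℕ, ∀ P, S P → ∃ P', S P' ∧ iteratedDeriv n (F P) = F P' := by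
    intro n
    induction n with
    | zero => exact fun P hP => ⟨P, hP, iteratedDeriv_zero⟩
    | succ n ih =>
      intro P hP
      obtain ⟨P', hP', h1⟩ := ih P hP
      refine ⟨DL w P', hD P' hP', ?_⟩
      rw [iteratedDeriv_succ, h1]
      funext t
      exact (hder P' t).deriv
  have h1 := Complex.hasSum_taylorSeries_of_entire (hd P) 0 t
  have h2 : ∀ n : ℕ, iteratedDeriv n (F P) 0 = 0 := by
    intro n
    obtain ⟨P', hP', h3⟩ := hit n P hP
    rw [h3]
    change eval (fl (NormedSpace.exp ((0 : ℂ) • w) * x)) P' = 0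
    rw [zero_smul, NormedSpace.exp_zero, Matrix.one_mul]
    exact h0 P' hP'
  simp only [h2, smul_zero] at h1
  exact h1.unique hasSum_zero

theorem isUnit_exp' (w : Matrix N N ℂ) : IsUnit (NormedSpace.exp w) := by
  refine IsUnit.of_mul_eq_one (NormedSpace.exp (-w)) ?_
  rw [← Matrix.exp_add_of_commute _ _ (Commute.neg_right (Commute.refl w)), add_neg_cancel, NormedSpace.exp_zero]

/-- **The exponentials of the elements of the Lie algebra act on the subtorsor.** -/
theorem exp_act (hT : IsSubtorsor K T) {w x : Matrix N N ℂ} (hw : w ∈ LM T) (hx : x ∈ T) :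
    NormedSpace.exp w * x ∈ T := by
  have hx' := hx
  have hT' := hT
  obtain ⟨I, h1, h2⟩ := hT.algebraic
  have hIV : ∀ p ∈ I, Van T p := fun p hp y hy => ((h2 y).1 hy).2 p hp
  rw [h2]
  refine ⟨(isUnit_exp' w).mul (hT'.isUnit x hx'), fun p hp => ?_⟩
  have h3 := eval_exp_zero (S := Van T) (w := w) (x := x) (fun P hP => van_DL hw hP) (fun P hP => hP x hx')
    (hIV p hp) 1
  rw [one_smul] at h3
  exact h3

/-! ### Rationality -/

/-- The components of an element of the Lie algebra are in the Lie algebra. -/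
theorem LM_map (hT : IsSubtorsor K T) (f : ℂ →ₗ[K] ℂ) {w : Matrix N N ℂ} (hw : w ∈ LM T) : w.map f ∈ LM T :=
  (LL_def hT).map f hw

end Pool.Agent.W2helper33.OQ
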